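import Pool.Agent.Y732.CM.Unc

/-! Infinite words from infinite codes; there are uncountably many. -/

set_option autoImplicit false

namespace Pool.Agent.Y732.CM

open Pool.Agent.Helper35.UR

/-- the data of the construction from an infinite code -/
theorem exists_dat_seq (r s M : ℕ) (hr : 6 ≤ r) (hs : 3 * s + 5 ≤ 2 * r) (hM : M + s + 2 = 4 * r)
    (γ : ℕ → Bool) (hγ : γ ∈ KK (2 * r + 1)) :
    ∃ D : Dat r s M, ∀ i, D.W i = (U (2 * r + 1) (code γ i) 0).val := by
  obtain ⟨q, hqr⟩ : ∃ q, q = 2 * r + 1 := ⟨_, rfl⟩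
  rw [← hqr] at hγ ⊢
  have hq : 13 ≤ q := by omega
  obtain ⟨Γ, hΓ⟩ : ∃ Γ : ℕ → List Bool, Γ = code γ := ⟨_, rfl⟩
  rw [← hΓ]
  have hsucc : ∀ j, Γ (j + 1) = γ j :: Γ j := by
    intro j; rw [hΓ]; rfl
  have hG : ∀ j, Γ j ∈ H (P0 q) j := by
    intro j; rw [hΓ]; exact hγ j
  have hlen : ∀ n, (Γ n).length = n := fun n => H_length (P0 q) n _ (hG n)
  let V : ℕ → Fin (q + 1) := fun n => U q (Γ n) 0
  have hV : ∀ n i, U q (Γ (n + i)) i = V n := by
    intro n i
    induction i with
    | zero => rfl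
    | succ i ih =>
      rw [show n + (i + 1) = (n + i) + 1 by omega, hsucc]
      show U q (Γ (n + i)) i = V n
      exact ih
  have hW1 : ∀ n d, 0 < d → d < q → V (n + d) ≠ V n := by
    intro n d hd hd2 h
    have := U_ne q (by omega) (Γ (n + d)) 0 d hd hd2
    rw [Nat.zero_add, hV n d] at this
    exact this h.symm
  have hfalse : ∀ p, γ (p + q - 1) = false → V (p + q) = V p := by
    intro p hp
    obtain ⟨t, ht⟩ : ∃ t, p + q = t + 1 := ⟨p + q - 1, by omega⟩
    have e : p + q - 1 = t := by omega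
    rw [e] at hp
    rw [ht]
    show U q (Γ (t + 1)) 0 = V p
    rw [hsucc, hp]
    show U q (Γ t) (q - 1) = V p
    rw [← hV p (q - 1), show p + (q - 1) = t by omega]
  have htrue : ∀ p, γ (p + q - 1) = true → V (p + q) ≠ V p := by
    intro p hp h
    obtain ⟨t, ht⟩ : ∃ t, p + q = t + 1 := ⟨p + q - 1, by omega⟩
    have e : p + q - 1 = t := by omega
    rw [e] at hp
    have h1 : U q (γ t :: Γ t) 0 = U q (Γ t) (q - 1) := by
      rw [← hsucc]
      show V (t + 1) = _
      rw [← ht, h, ← hV p (q - 1), show p + (q - 1) = t by omega]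
    have := U_cons_zero_false q _ _ (by omega) h1
    rw [hp] at this
    simp at this
  have hrun : ∀ p b, ¬ (γ p = b ∧ γ (p + 1) = b ∧ γ (p + 2) = b ∧ γ (p + 3) = b) := by
    rintro p b ⟨e0, e1, e2, e3⟩
    have hm := hG (p + 3 + 1)
    rw [mem_H_succ] at hm
    apply hm.2.1
    refine ⟨b, Γ p, ?_⟩
    rw [hsucc, show p + 3 = p + 2 + 1 by rfl, hsucc, show p + 2 = p + 1 + 1 by rfl, hsucc, hsucc]
    rw [show p + 1 + 1 + 1 = p + 3 by rfl, show p + 1 + 1 = p + 2 by rfl, e0, e1, e2, e3]
  have hW2 : ∀ n, ¬ ∀ i < 4, V (n + i + q) = V (n + i) := by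
    intro n h
    apply hrun (n + q - 1) false
    have key : ∀ i < 4, γ (n + i + q - 1) = false := by
      intro i hi
      by_contra hne
      exact htrue (n + i) (by simpa using hne) (h i hi)
    refine ⟨by simpa using key 0 (by omega), ?_, ?_, ?_⟩
    · have := key 1 (by omega); rwa [show n + q - 1 + 1 = n + 1 + q - 1 by omega]
    · have := key 2 (by omega); rwa [show n + q - 1 + 2 = n + 2 + q - 1 by omega]
    · have := key 3 (by omega); rwa [show n + q - 1 + 3 = n + 3 + q - 1 by omega]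
  have hW3 : ∀ n, ¬ ∀ i < 3, V (n + i + (q + 1)) = V (n + i) := by
    intro n h
    apply hrun (n + q - 1) true
    have keyA : ∀ i < 3, γ (n + i + q - 1) = true := by
      intro i hi
      by_contra hne
      have h1 := hfalse (n + i) (by simpa using hne)
      have h2 := h i hi
      exact hW1 (n + i + q) 1 (by omega) (by omega) (by rw [show n + i + q + 1 = n + i + (q + 1) by omega, h2, h1])
    have keyB : ∀ i < 3, γ (n + i + 1 + q - 1) = true := by
      intro i hi
      by_contra hne
      have h1 := hfalse (n + i + 1) (by simpa using hne)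
      have h2 := h i hi
      rw [show n + i + (q + 1) = n + i + 1 + q by omega, h1] at h2
      exact hW1 (n + i) 1 (by omega) (by omega) h2
    refine ⟨by simpa using keyA 0 (by omega), ?_, ?_, ?_⟩
    · have := keyA 1 (by omega); rwa [show n + q - 1 + 1 = n + 1 + q - 1 by omega]
    · have := keyA 2 (by omega); rwa [show n + q - 1 + 2 = n + 2 + q - 1 by omega]
    · have := keyB 2 (by omega); rwa [show n + q - 1 + 3 = n + 2 + 1 + q - 1 by omega]
  have hW4 : ∀ e n m, (e + 1) * (2 * q - 4) + 4 ≤ m → m < (e + 2) * (2 * q - 4) + 4 →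
      ¬ ∀ i < q + e, V (n + i + m) = V (n + i) := by
    intro e n m h1 h2 h
    have hm := hG (n + m + q + e - 2 + 1)
    rw [mem_H_succ] at hm
    apply hm.2.2 e
    refine ⟨m, h1, h2, by rw [hlen]; omega, ?_⟩
    intro i hi
    have a1 := hV (n + m + q + e - 1 - i) i
    have a2 := hV (n + q + e - 1 - i) (i + m)
    rw [show n + m + q + e - 1 - i + i = n + m + q + e - 2 + 1 by omega] at a1
    rw [show n + q + e - 1 - i + (i + m) = n + m + q + e - 2 + 1 by omega] at a2
    rw [a1, a2]
    have := h (q + e - 1 - i) (by omega)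
    rw [show n + (q + e - 1 - i) + m = n + m + q + e - 1 - i by omega,
      show n + (q + e - 1 - i) = n + q + e - 1 - i by omega] at this
    exact this
  let P : ℕ → Fin (q + 1) := fun R => miss q (fun i => V (R + i))
  have hP : ∀ R i, i < q → V (R + i) ≠ P R := fun R i hi => miss_spec q (fun i => V (R + i)) i hi
  refine ⟨{
    W := fun n => (V n).val
    rho := fun R => (P R).val
    hr := hr
    hs := hs
    hM := hM
    W1 := ?_
    Wlt := ?_
    rholt := ?_
    rhomiss := ?_
    W2 := ?_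
    W3 := ?_
    W4 := ?_ }, ?_⟩
  · intro n d h1 h2 h
    exact hW1 n d h1 (by omega) (Fin.ext h)
  · intro n; have := (V n).isLt; omega
  · intro n; have := (P n).isLt; omega
  · intro R i hi h
    exact hP R i (by omega) (Fin.ext h)
  · intro n h
    apply hW2 n
    intro i hi
    have := h i hi
    rw [← hqr] at this
    exact Fin.ext this
  · intro n h
    apply hW3 n
    intro i hi
    have := h i hi
    rw [show 2 * r + 2 = q + 1 by omega] at this
    exact Fin.ext this
  · intro e n m h1 h2 h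
    rw [show 4 * r - 2 = 2 * q - 4 by omega] at h1 h2
    apply hW4 e n m h1 h2
    intro i hi
    have := h i (by omega)
    exact Fin.ext this
  · intro i
    rfl


/-- Continuum many infinite words. -/
theorem many_words (k : ℕ) (hk : 22 ≤ k) : ∃ F : (ℕ → Bool) → (ℕ → Fin k), Function.Injective F ∧
    ∀ x, ∀ i L t, 1 ≤ L → L ≤ t → t < L * (k - 2) → ¬ Rep (F x) i L t ∧ ¬ RevRep (F x) i L t := by
  obtain ⟨s, hs⟩ : ∃ s, s = (4 - k % 4) % 4 := ⟨_, rfl⟩
  obtain ⟨r, hr⟩ : ∃ r, r = (k + s) / 4 := ⟨_, rfl⟩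
  have hD : ∀ γ : ℕ → Bool, ∃ w : ℕ → Fin k, γ ∈ KK (2 * r + 1) →
      (∀ i L t, 1 ≤ L → L ≤ t → t < L * (k - 2) → ¬ Rep w i L t ∧ ¬ RevRep w i L t) ∧
      ∀ i, 1 ≤ i → (w (i * (k - 2) - 1)).val = (U (2 * r + 1) (code γ i) 0).val := by
    intro γ
    by_cases hγ : γ ∈ KK (2 * r + 1)
    swap
    · exact ⟨fun _ => ⟨0, by omega⟩, fun h => absurd h hγ⟩
    obtain ⟨D, hDW⟩ := exists_dat_seq r s (k - 2) (by omega) (by omega) (by omega) γ hγ
    have hr6 := D.hr
    have hs2 := D.hs
    have hM := D.hM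
    have hlt : ∀ x, D.w x < k := by
      intro x
      rcases cls D x with ⟨R, h⟩ | ⟨R, j, h⟩ | ⟨R, j, h⟩
      · rw [w_reg D h]; have := D.rholt R; omega
      · rw [w_lane D h]; have := D.Wlt (R + fI r j); omega
      · rw [w_fix D h]
        obtain ⟨h1, h2, h3, h4⟩ := h
        unfold sg at *
        omega
    refine ⟨fun x => ⟨D.w x, hlt x⟩, fun _ => ⟨?_, ?_⟩⟩
    · intro i L t h1 h2 h3
      constructor
      · intro h
        apply no_dir D i L t h1 h2 h3
        intro j hj
        exact congrArg Fin.val (h j hj)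
      · intro h
        apply no_rev D i L t h1 h2 h3
        intro j hj
        exact congrArg Fin.val (h j hj)
    · intro i hi
      show D.w (i * (k - 2) - 1) = _
      rw [← hDW i]
      obtain ⟨R, rfl⟩ : ∃ R, i = R + 1 := ⟨i - 1, by omega⟩
      have hlane : IsLane r s (k - 2) ((R + 1) * (k - 2) - 1) R (2 * r - 1) := by
        refine ⟨by omega, le_refl _, ?_⟩
        rw [col_last D, Nat.add_mul, Nat.one_mul]
        omega
      rw [w_lane D hlane]
      congr 1
      unfold fI
      split_ifs <;> omega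
  choose w hw using hD
  haveI hpol : PolishSpace (ℕ → Bool) := { }
  obtain ⟨f, hf1, _, hf2⟩ := (isClosed_KK (2 * r + 1)).exists_nat_bool_injection_of_not_countable
    (KK_uncountable (2 * r + 1) (by omega))
  have hf : ∀ x, f x ∈ KK (2 * r + 1) := fun x => hf1 ⟨x, rfl⟩
  suffices hinj : Set.InjOn w (KK (2 * r + 1)) from
    ⟨fun x => w (f x), fun x y hxy => hf2 (hinj (hf x) (hf y) hxy), fun x => (hw _ (hf x)).1⟩
  intro γ hγ γ' hγ' he
  by_contra hne
  have hex : ∃ i, γ i ≠ γ' i := by
    by_contra hcon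
    push Not at hcon
    exact hne (funext hcon)
  classical
  have hi := Nat.find_spec hex
  have hmin : ∀ j < Nat.find hex, γ j = γ' j := by
    intro j hj
    have := Nat.find_min hex hj
    push Not at this
    exact this
  set i := Nat.find hex with hidef
  have hc : code γ i = code γ' i := (code_eq_iff γ γ' i).2 hmin
  have h1 := (hw γ hγ).2 (i + 1) (by omega)
  have h2 := (hw γ' hγ').2 (i + 1) (by omega)
  rw [he] at h1
  have h3 : U (2 * r + 1) (γ i :: code γ i) 0 = U (2 * r + 1) (γ' i :: code γ i) 0 := by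
    apply Fin.ext
    have e1 : code γ (i + 1) = γ i :: code γ i := rfl
    have e2 : code γ' (i + 1) = γ' i :: code γ i := by rw [hc]; rfl
    rw [← e1, ← e2, ← h1, ← h2]
  have hsp := miss_spec (2 * r + 1) (U (2 * r + 1) (code γ i)) (2 * r + 1 - 1) (by omega)
  cases hb : γ i <;> cases hb' : γ' i <;> rw [hb, hb'] at h3 hi
  · exact hi rfl
  · exact hsp h3
  · exact hsp h3.symm
  · exact hi rfl

end Pool.Agent.Y732.CM
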