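import Pool.Agent.Y732.CM.Ext

/-! Infinite words from extendable codes; different codes give different prefixes. -/

set_option autoImplicit false

namespace Pool.Agent.Y732.CM

open Pool.Agent.Helper35.UR

/-- the data of the construction from an extendable code -/
theorem exists_dat' (r s M : ℕ) (hr : 6 ≤ r) (hs : 3 * s + 5 ≤ 2 * r) (hM : M + s + 2 = 4 * r)
    (k : ℕ) (c : List Bool) (hc : c ∈ EE (2 * r + 1) k) :
    ∃ D : Dat r s M, ∀ i ≤ k, D.W i = (U (2 * r + 1) c (k - i)).val := by
  obtain ⟨q, hqr⟩ : ∃ q, q = 2 * r + 1 := ⟨_, rfl⟩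
  rw [← hqr] at hc ⊢
  have hq : 13 ≤ q := by omega
  obtain ⟨Γ, γ, h0, hsucc, hG, hΓk⟩ := Pool.Agent.Y732.CM.exists_code q k c hc
  have hlen : ∀ n, (Γ n).length = n := fun n => H_length (P0 q) n _ (hG n)
  let V : ℕ → Fin (q + 1) := fun n => U q (Γ n) 0
  have hV : ∀ n i, U q (Γ (n + i)) i = V n := by
    intro n i
    induction i with
    | zero => rfl
    | succ i ih =>
      rw [show n + (i + 1) = (n + i) + 1 by omega, hsucc]
      show U q (Γ (n + i)) i = V n
      exact ih
  have hVk : ∀ i ≤ k, V i = U q c (k - i) := by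
    intro i hi
    rw [← hΓk, ← hV i (k - i), show i + (k - i) = k by omega]
  have hW1 : ∀ n d, 0 < d → d < q → V (n + d) ≠ V n := by
    intro n d hd hd2 h
    have := U_ne q (by omega) (Γ (n + d)) 0 d hd hd2
    rw [Nat.zero_add, hV n d] at this
    exact this h.symm
  have hfalse : ∀ p, γ (p + q - 1) = false → V (p + q) = V p := by
    intro p hp
    obtain ⟨t, ht⟩ : ∃ t, p + q = t + 1 := ⟨p + q - 1, by omega⟩
    have e : p + q - 1 = t := by omega
    rw [e] at hp
    rw [ht]
    show U q (Γ (t + 1)) 0 = V p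
    rw [hsucc, hp]
    show U q (Γ t) (q - 1) = V p
    rw [← hV p (q - 1), show p + (q - 1) = t by omega]
  have htrue : ∀ p, γ (p + q - 1) = true → V (p + q) ≠ V p := by
    intro p hp h
    obtain ⟨t, ht⟩ : ∃ t, p + q = t + 1 := ⟨p + q - 1, by omega⟩
    have e : p + q - 1 = t := by omega
    rw [e] at hp
    have h1 : U q (γ t :: Γ t) 0 = U q (Γ t) (q - 1) := by
      rw [← hsucc]
      show V (t + 1) = _
      rw [← ht, h, ← hV p (q - 1), show p + (q - 1) = t by omega]
    have := U_cons_zero_false q _ _ (by omega) h1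
    rw [hp] at this
    simp at this
  have hrun : ∀ p b, ¬ (γ p = b ∧ γ (p + 1) = b ∧ γ (p + 2) = b ∧ γ (p + 3) = b) := by
    rintro p b ⟨e0, e1, e2, e3⟩
    have hm := hG (p + 3 + 1)
    rw [mem_H_succ] at hm
    apply hm.2.1
    refine ⟨b, Γ p, ?_⟩
    rw [hsucc, show p + 3 = p + 2 + 1 by rfl, hsucc, show p + 2 = p + 1 + 1 by rfl, hsucc, hsucc]
    rw [show p + 1 + 1 + 1 = p + 3 by rfl, show p + 1 + 1 = p + 2 by rfl, e0, e1, e2, e3]
  have hW2 : ∀ n, ¬ ∀ i < 4, V (n + i + q) = V (n + i) := by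
    intro n h
    apply hrun (n + q - 1) false
    have key : ∀ i < 4, γ (n + i + q - 1) = false := by
      intro i hi
      by_contra hne
      exact htrue (n + i) (by simpa using hne) (h i hi)
    refine ⟨by simpa using key 0 (by omega), ?_, ?_, ?_⟩
    · have := key 1 (by omega); rwa [show n + q - 1 + 1 = n + 1 + q - 1 by omega]
    · have := key 2 (by omega); rwa [show n + q - 1 + 2 = n + 2 + q - 1 by omega]
    · have := key 3 (by omega); rwa [show n + q - 1 + 3 = n + 3 + q - 1 by omega]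
  have hW3 : ∀ n, ¬ ∀ i < 3, V (n + i + (q + 1)) = V (n + i) := by
    intro n h
    apply hrun (n + q - 1) true
    have keyA : ∀ i < 3, γ (n + i + q - 1) = true := by
      intro i hi
      by_contra hne
      have h1 := hfalse (n + i) (by simpa using hne)
      have h2 := h i hi
      exact hW1 (n + i + q) 1 (by omega) (by omega) (by rw [show n + i + q + 1 = n + i + (q + 1) by omega, h2, h1])
    have keyB : ∀ i < 3, γ (n + i + 1 + q - 1) = true := by
      intro i hi
      by_contra hne
      have h1 := hfalse (n + i + 1) (by simpa using hne)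
      have h2 := h i hi
      rw [show n + i + (q + 1) = n + i + 1 + q by omega, h1] at h2
      exact hW1 (n + i) 1 (by omega) (by omega) h2
    refine ⟨by simpa using keyA 0 (by omega), ?_, ?_, ?_⟩
    · have := keyA 1 (by omega); rwa [show n + q - 1 + 1 = n + 1 + q - 1 by omega]
    · have := keyA 2 (by omega); rwa [show n + q - 1 + 2 = n + 2 + q - 1 by omega]
    · have := keyB 2 (by omega); rwa [show n + q - 1 + 3 = n + 2 + 1 + q - 1 by omega]
  have hW4 : ∀ e n m, (e + 1) * (2 * q - 4) + 4 ≤ m → m < (e + 2) * (2 * q - 4) + 4 →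
      ¬ ∀ i < q + e, V (n + i + m) = V (n + i) := by
    intro e n m h1 h2 h
    have hm := hG (n + m + q + e - 2 + 1)
    rw [mem_H_succ] at hm
    apply hm.2.2 e
    refine ⟨m, h1, h2, by rw [hlen]; omega, ?_⟩
    intro i hi
    have a1 := hV (n + m + q + e - 1 - i) i
    have a2 := hV (n + q + e - 1 - i) (i + m)
    rw [show n + m + q + e - 1 - i + i = n + m + q + e - 2 + 1 by omega] at a1
    rw [show n + q + e - 1 - i + (i + m) = n + m + q + e - 2 + 1 by omega] at a2
    rw [a1, a2]
    have := h (q + e - 1 - i) (by omega)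
    rw [show n + (q + e - 1 - i) + m = n + m + q + e - 1 - i by omega,
      show n + (q + e - 1 - i) = n + q + e - 1 - i by omega] at this
    exact this
  let P : ℕ → Fin (q + 1) := fun R => miss q (fun i => V (R + i))
  have hP : ∀ R i, i < q → V (R + i) ≠ P R := fun R i hi => miss_spec q (fun i => V (R + i)) i hi
  refine ⟨{
    W := fun n => (V n).val
    rho := fun R => (P R).val
    hr := hr
    hs := hs
    hM := hM
    W1 := ?_
    Wlt := ?_
    rholt := ?_
    rhomiss := ?_
    W2 := ?_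
    W3 := ?_
    W4 := ?_ }, ?_⟩
  · intro n d h1 h2 h
    exact hW1 n d h1 (by omega) (Fin.ext h)
  · intro n; have := (V n).isLt; omega
  · intro n; have := (P n).isLt; omega
  · intro R i hi h
    exact hP R i (by omega) (Fin.ext h)
  · intro n h
    apply hW2 n
    intro i hi
    have := h i hi
    rw [← hqr] at this
    exact Fin.ext this
  · intro n h
    apply hW3 n
    intro i hi
    have := h i hi
    rw [show 2 * r + 2 = q + 1 by omega] at this
    exact Fin.ext this
  · intro e n m h1 h2 h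
    rw [show 4 * r - 2 = 2 * q - 4 by omega] at h1 h2
    apply hW4 e n m h1 h2
    intro i hi
    have := h i (by omega)
    exact Fin.ext this
  · intro i hi
    exact congrArg Fin.val (hVk i hi)

/-- Every extendable code of length `n` gives an infinite word; different codes give words that
differ at one of the first `n (k - 2)` positions. -/
theorem upper' (k : ℕ) (hk : 22 ≤ k) : ∃ q : ℕ, 13 ≤ q ∧ ∀ n : ℕ, ∃ w : List Bool → ℕ → Fin k,
    (∀ c ∈ EE q n, ∀ i L t, 1 ≤ L → L ≤ t → t < L * (k - 2) →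
      ¬ Rep (w c) i L t ∧ ¬ RevRep (w c) i L t) ∧
    ∀ c ∈ EE q n, ∀ c' ∈ EE q n, (∀ x < n * (k - 2), w c x = w c' x) → c = c' := by
  obtain ⟨s, hs⟩ : ∃ s, s = (4 - k % 4) % 4 := ⟨_, rfl⟩
  obtain ⟨r, hr⟩ : ∃ r, r = (k + s) / 4 := ⟨_, rfl⟩
  refine ⟨2 * r + 1, by omega, fun n => ?_⟩
  have hD : ∀ c : List Bool, ∃ w : ℕ → Fin k, c ∈ EE (2 * r + 1) n →
      (∀ i L t, 1 ≤ L → L ≤ t → t < L * (k - 2) → ¬ Rep w i L t ∧ ¬ RevRep w i L t) ∧
      ∀ i, 1 ≤ i → i ≤ n → (w (i * (k - 2) - 1)).val = (U (2 * r + 1) c (n - i)).val := by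
    intro c
    by_cases hc : c ∈ EE (2 * r + 1) n
    swap
    · exact ⟨fun _ => ⟨0, by omega⟩, fun h => absurd h hc⟩
    obtain ⟨D, hDW⟩ := exists_dat' r s (k - 2) (by omega) (by omega) (by omega) n c hc
    have hr6 := D.hr
    have hs2 := D.hs
    have hM := D.hM
    have hlt : ∀ x, D.w x < k := by
      intro x
      rcases cls D x with ⟨R, h⟩ | ⟨R, j, h⟩ | ⟨R, j, h⟩
      · rw [w_reg D h]; have := D.rholt R; omega
      · rw [w_lane D h]; have := D.Wlt (R + fI r j); omega
      · rw [w_fix D h]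
        obtain ⟨h1, h2, h3, h4⟩ := h
        unfold sg at *
        omega
    refine ⟨fun x => ⟨D.w x, hlt x⟩, fun _ => ⟨?_, ?_⟩⟩
    · intro i L t h1 h2 h3
      constructor
      · intro h
        apply no_dir D i L t h1 h2 h3
        intro j hj
        exact congrArg Fin.val (h j hj)
      · intro h
        apply no_rev D i L t h1 h2 h3
        intro j hj
        exact congrArg Fin.val (h j hj)
    · intro i hi hin
      show D.w (i * (k - 2) - 1) = _
      rw [← hDW i hin]
      obtain ⟨R, rfl⟩ : ∃ R, i = R + 1 := ⟨i - 1, by omega⟩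
      have hlane : IsLane r s (k - 2) ((R + 1) * (k - 2) - 1) R (2 * r - 1) := by
        refine ⟨by omega, le_refl _, ?_⟩
        rw [col_last D, Nat.add_mul, Nat.one_mul]
        omega
      rw [w_lane D hlane]
      congr 1
      unfold fI
      split_ifs <;> omega
  choose w hw using hD
  refine ⟨w, fun c hc => (hw c hc).1, fun c hc c' hc' h => ?_⟩
  have hl : ∀ c ∈ EE (2 * r + 1) n, c.length = n := by
    classical
    intro c hc
    unfold EE at hc
    exact H_length _ n c (Finset.mem_filter.1 hc).1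
  apply U_inj (2 * r + 1) (by omega) c c' (by rw [hl c hc, hl c' hc'])
  intro p
  rcases Nat.lt_or_ge p n with hp | hp
  · apply Fin.ext
    have h1 := (hw c hc).2 (n - p) (by omega) (by omega)
    have h2 := (hw c' hc').2 (n - p) (by omega) (by omega)
    rw [show n - (n - p) = p by omega] at h1 h2
    rw [← h1, ← h2]
    refine congrArg Fin.val (h _ ?_)
    have h3 : (n - p) * (k - 2) ≤ n * (k - 2) := Nat.mul_le_mul_right _ (by omega)
    have h4 : 0 < (n - p) * (k - 2) := Nat.mul_pos (by omega) (by omega)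
    omega
  · obtain ⟨t, rfl⟩ := Nat.exists_eq_add_of_le hp
    rw [U_drop _ n c t (hl c hc).ge, U_drop _ n c' t (hl c' hc').ge,
      List.drop_eq_nil_of_le (hl c hc).le, List.drop_eq_nil_of_le (hl c' hc').le]

/-- Exponentially many prefixes. -/
theorem prefixes (k : ℕ) (hk : 22 ≤ k) (N : ℕ) :
    (7 / 4 : ℝ) ^ (N / (k - 2)) ≤ (({u : Fin N → Fin k | ∃ w : ℕ → Fin k,
      (∀ i L t, 1 ≤ L → L ≤ t → t < L * (k - 2) → ¬ Rep w i L t ∧ ¬ RevRep w i L t) ∧
      ∀ i : Fin N, u i = w i} : Set (Fin N → Fin k)).ncard : ℝ) := by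
  classical
  obtain ⟨q, hq, h⟩ := upper' k hk
  obtain ⟨n, hn⟩ : ∃ n, n = N / (k - 2) := ⟨_, rfl⟩
  rw [← hn]
  obtain ⟨w, h1, h2⟩ := h n
  refine (EE_card q hq n).trans ?_
  have hle : n * (k - 2) ≤ N := by rw [hn]; exact Nat.div_mul_le_self N (k - 2)
  have h3 : ((EE q n : Finset (List Bool)) : Set (List Bool)).ncard ≤
      ({u : Fin N → Fin k | ∃ w : ℕ → Fin k,
      (∀ i L t, 1 ≤ L → L ≤ t → t < L * (k - 2) → ¬ Rep w i L t ∧ ¬ RevRep w i L t) ∧
      ∀ i : Fin N, u i = w i} : Set (Fin N → Fin k)).ncard := by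
    apply Set.ncard_le_ncard_of_injOn (fun c => fun i : Fin N => w c i)
    · intro c hc
      exact ⟨w c, h1 c hc, fun i => rfl⟩
    · intro c hc c' hc' he
      apply h2 c hc c' hc'
      intro x hx
      exact congrFun he ⟨x, by omega⟩
  rw [Set.ncard_coe_finset] at h3
  exact_mod_cast h3

end Pool.Agent.Y732.CM
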