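import Pool.Agent.Helper35.URFin

/-! Counting codes with a general predicate (adapted from Helper35/URCnt and URExist). -/

set_option autoImplicit false

namespace Pool.Agent.Y732.CM

open Pool.Agent.Helper35.UR (U U_ne U_drop U_inj U_cons_zero_false Bad4 BadRun Ext card_Ext mem_Ext miss miss_spec)

section
variable (q : ℕ) (P : List Bool → Prop)

open Classical in
/-- codes of length `n` all of whose older parts satisfy `P` -/
noncomputable def H : ℕ → Finset (List Bool)
  | 0 => {[]}
  | n + 1 => (Ext (H n)).filter (fun C => P C)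

theorem mem_H_succ {n : ℕ} {C : List Bool} : C ∈ H P (n + 1) ↔ C ∈ Ext (H P n) ∧ P C := by
  classical
  show C ∈ (Ext (H P n)).filter (fun C => P C) ↔ _
  rw [Finset.mem_filter]

theorem H_length : ∀ (n : ℕ) (C : List Bool), C ∈ H P n → C.length = n := by
  intro n
  induction n with
  | zero =>
    intro C h
    have : C = [] := by simpa [H] using h
    rw [this]; rfl
  | succ n ih =>
    intro C h
    rw [mem_H_succ] at h
    obtain ⟨b, c, h1, rfl⟩ := mem_Ext.mp h.1
    simp [ih c h1]

theorem H_drop : ∀ (k n : ℕ) (C : List Bool), C ∈ H P (n + k) → C.drop k ∈ H P n := by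
  intro k
  induction k with
  | zero => intro n C h; simpa using h
  | succ k ih =>
    intro n C h
    rw [← Nat.add_assoc, mem_H_succ] at h
    obtain ⟨b, c, h1, rfl⟩ := mem_Ext.mp h.1
    exact ih n c h1

open Classical in
theorem run_bound (hP1 : ∀ C, P C → ¬ BadRun C) (n : ℕ) (hn : 3 ≤ n) :
    ((Ext (H P n)).filter (fun C => BadRun C)).card ≤ 2 * (H P (n - 4)).card := by
  have : 2 * (H P (n - 4)).card = (Ext (H P (n - 4))).card := (card_Ext _).symm
  rw [this]
  apply Finset.card_le_card_of_injOn (fun C => C.headD true :: C.drop 5)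
  · intro C hC
    simp only [Finset.coe_filter, Set.mem_ofPred_eq] at hC
    obtain ⟨h1, b, C', rfl⟩ := hC
    obtain ⟨b0, c, hc, e⟩ := mem_Ext.mp h1
    have hlen := H_length P n c hc
    simp only [List.cons.injEq] at e
    obtain ⟨rfl, rfl⟩ := e
    show _ ∈ Ext (H P (n - 4))
    rw [mem_Ext]
    refine ⟨_, _, ?_, rfl⟩
    show (C'.drop 1) ∈ H P (n - 4)
    rcases Nat.eq_or_lt_of_le hn with h3 | h3
    · subst h3
      have : C' = [] := by
        have : C'.length = 0 := by simpa using hlen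
        exact List.length_eq_zero_iff.mp this
      subst this
      show ([] : List Bool) ∈ H P 0
      simp [H]
    · have := H_drop P 4 (n - 4) _ (by rw [show n - 4 + 4 = n by omega]; exact hc)
      simpa using this
  · intro C1 hC1 C2 hC2 hE
    simp only [Finset.coe_filter, Set.mem_ofPred_eq] at hC1 hC2
    obtain ⟨h1, b1, C1', rfl⟩ := hC1
    obtain ⟨h2, b2, C2', rfl⟩ := hC2
    obtain ⟨b0, c, hc, e⟩ := mem_Ext.mp h1
    obtain ⟨b0', c', hc', e'⟩ := mem_Ext.mp h2
    simp only [List.cons.injEq] at e e'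
    obtain ⟨rfl, rfl⟩ := e
    obtain ⟨rfl, rfl⟩ := e'
    have hE' : b1 :: C1'.drop 1 = b2 :: C2'.drop 1 := hE
    simp only [List.cons.injEq] at hE'
    obtain ⟨hb, hd⟩ := hE'
    subst hb
    have hl1 := H_length P n _ hc
    have hl2 := H_length P n _ hc'
    have key : ∀ C' : List Bool, b1 :: b1 :: b1 :: C' ∈ H P n → C' = [] ∨ ∃ C'', C' = (!b1) :: C'' := by
      intro C' hC'
      rcases C' with _ | ⟨b, C''⟩
      · left; rfl
      · right
        refine ⟨C'', ?_⟩
        have hlen := H_length P n _ hC'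
        obtain ⟨n', rfl⟩ : ∃ n', n = n' + 1 := ⟨n - 1, by omega⟩
        rw [mem_H_succ] at hC'
        have hrun := hP1 _ hC'.2
        have : b = !b1 := by
          by_contra hne
          have hbb : b = b1 := by cases b <;> cases b1 <;> simp_all
          apply hrun
          exact ⟨b1, C'', by rw [hbb]⟩
        rw [this]
    rcases key C1' hc with h1 | ⟨D1, h1⟩ <;> rcases key C2' hc' with h2 | ⟨D2, h2⟩
    · rw [h1, h2]
    · subst h1; subst h2; simp at hl1 hl2; omega
    · subst h1; subst h2; simp at hl1 hl2; omega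
    · subst h1; subst h2
      have : D1 = D2 := by simpa using hd
      rw [this]

open Classical in
theorem run_empty (n : ℕ) (hn : n < 3) :
    ((Ext (H P n)).filter (fun C => BadRun C)).card = 0 := by
  rw [Finset.card_eq_zero, Finset.filter_eq_empty_iff]
  rintro C hC ⟨b, C', rfl⟩
  obtain ⟨b0, c, hc, e⟩ := mem_Ext.mp hC
  have := H_length P n c hc
  simp only [List.cons.injEq] at e
  obtain ⟨-, rfl⟩ := e
  simp at this
  omega

open Classical in
theorem bad4_bound (hq : 4 ≤ q) (n e : ℕ) (he : q + e ≤ n + 1) :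
    ((Ext (H P n)).filter (fun C => Bad4 q C e)).card ≤ 2 * (H P (n + 2 - q - e)).card := by
  have : 2 * (H P (n + 2 - q - e)).card = (Ext (H P (n + 2 - q - e))).card := (card_Ext _).symm
  rw [this]
  have hA : (e + 1) * (2 * q - 4) = e * (2 * q - 4) + (2 * q - 4) := by rw [Nat.add_mul, Nat.one_mul]
  have hB : (e + 2) * (2 * q - 4) = e * (2 * q - 4) + 2 * (2 * q - 4) := by rw [Nat.add_mul]
  have hEe : e ≤ e * (2 * q - 4) := Nat.le_mul_of_pos_right e (by omega)
  -- choice of the shift
  let mm : List Bool → ℕ := fun C => if h : Bad4 q C e then h.choose else 0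
  have hmm : ∀ C, Bad4 q C e → (e + 1) * (2 * q - 4) + 4 ≤ mm C ∧ mm C < (e + 2) * (2 * q - 4) + 4 ∧
      ∀ i < q + e, U q C i = U q C (i + mm C) := by
    intro C h
    have : mm C = h.choose := by simp only [mm]; rw [dif_pos h]
    rw [this]
    exact h.choose_spec
  apply Finset.card_le_card_of_injOn
    (fun C => (decide (mm C < (e + 1) * (2 * q - 4) + 4 + (q - 2))) :: C.drop (q + e - 1))
  · intro C hC
    simp only [Finset.coe_filter, Set.mem_ofPred_eq] at hC
    obtain ⟨h1, h2⟩ := hC
    obtain ⟨b0, c, hc, rfl⟩ := mem_Ext.mp h1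
    show _ ∈ Ext (H P (n + 2 - q - e))
    rw [mem_Ext]
    refine ⟨_, _, ?_, rfl⟩
    obtain ⟨k, hk⟩ : ∃ k, q + e - 1 = k + 1 := ⟨q + e - 2, by omega⟩
    rw [hk]
    show c.drop k ∈ _
    apply H_drop P k
    rw [show n + 2 - q - e + k = n by omega]
    exact hc
  · intro C1 hC1 C2 hC2 hE
    simp only [Finset.coe_filter, Set.mem_ofPred_eq] at hC1 hC2
    obtain ⟨h1, b1⟩ := hC1
    obtain ⟨h2, b2⟩ := hC2
    obtain ⟨x1, c1, hc1, e1⟩ := mem_Ext.mp h1
    obtain ⟨x2, c2, hc2, e2⟩ := mem_Ext.mp h2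
    have l1 : C1.length = n + 1 := by rw [e1]; simp [H_length P n c1 hc1]
    have l2 : C2.length = n + 1 := by rw [e2]; simp [H_length P n c2 hc2]
    have hE' : (decide (mm C1 < (e + 1) * (2 * q - 4) + 4 + (q - 2))) :: C1.drop (q + e - 1) =
      (decide (mm C2 < (e + 1) * (2 * q - 4) + 4 + (q - 2))) :: C2.drop (q + e - 1) := hE
    simp only [List.cons.injEq] at hE'
    obtain ⟨hh, hd⟩ := hE'
    obtain ⟨p1, p2, p3⟩ := hmm C1 b1
    obtain ⟨r1, r2, r3⟩ := hmm C2 b2
    have hhalf : mm C1 < (e + 1) * (2 * q - 4) + 4 + (q - 2) ↔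
        mm C2 < (e + 1) * (2 * q - 4) + 4 + (q - 2) := by
      rw [← decide_eq_decide]
      exact hh
    have D1 : ∀ i, U q C1 (q + e - 1 + i) = U q (C1.drop (q + e - 1)) i := fun i =>
      U_drop q _ C1 i (by omega)
    have D2 : ∀ i, U q C2 (q + e - 1 + i) = U q (C1.drop (q + e - 1)) i := fun i => by
      rw [hd]; exact U_drop q _ C2 i (by omega)
    have hm : mm C1 = mm C2 := by
      have a1 : U q (C1.drop (q + e - 1)) 0 = U q (C1.drop (q + e - 1)) (mm C1) := by
        rw [← D1 0, ← D1 (mm C1)]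
        exact p3 (q + e - 1) (by omega)
      have a2 : U q (C1.drop (q + e - 1)) 0 = U q (C1.drop (q + e - 1)) (mm C2) := by
        rw [← D2 0, ← D2 (mm C2)]
        exact r3 (q + e - 1) (by omega)
      by_contra hne
      rcases Nat.lt_or_gt_of_ne hne with hl | hl
      · have := U_ne q (by omega) (C1.drop (q + e - 1)) (mm C1) (mm C2 - mm C1) (by omega) (by omega)
        rw [show mm C1 + (mm C2 - mm C1) = mm C2 by omega] at this
        exact this (a2.symm.trans a1)
      · have := U_ne q (by omega) (C1.drop (q + e - 1)) (mm C2) (mm C1 - mm C2) (by omega) (by omega)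
        rw [show mm C2 + (mm C1 - mm C2) = mm C1 by omega] at this
        exact this (a1.symm.trans a2)
    apply U_inj q (by omega) C1 C2 (by omega)
    intro i
    by_cases hi : i < q + e - 1
    · rw [p3 i (by omega), r3 i (by omega), ← hm,
        show i + mm C1 = q + e - 1 + (i + mm C1 - (q + e - 1)) by omega, D1, D2]
    · rw [show i = q + e - 1 + (i - (q + e - 1)) by omega, D1, D2]

open Classical in
theorem recursion (hP2 : ∀ C, ¬ BadRun C → (∀ e, q + e ≤ C.length → ¬ Bad4 q C e) → P C)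
    (hq : 4 ≤ q) (n : ℕ) :
    2 * (H P n).card ≤ (H P (n + 1)).card + ((Ext (H P n)).filter (fun C => BadRun C)).card
      + ∑ e ∈ Finset.range (n + 2 - q), 2 * (H P (n + 2 - q - e)).card := by
  rw [← card_Ext]
  have hsub : Ext (H P n) ⊆ (H P (n + 1) ∪ (Ext (H P n)).filter (fun C => BadRun C)) ∪
      (Finset.range (n + 2 - q)).biUnion (fun e => (Ext (H P n)).filter (fun C => Bad4 q C e)) := by
    intro C hC
    by_cases hr : BadRun C
    · exact Finset.mem_union_left _ (Finset.mem_union_right _ (Finset.mem_filter.mpr ⟨hC, hr⟩))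
    · by_cases h4 : ∃ e, q + e ≤ C.length ∧ Bad4 q C e
      · obtain ⟨e, he, hb⟩ := h4
        obtain ⟨b0, c, hc, rfl⟩ := mem_Ext.mp hC
        have := H_length P n c hc
        simp only [List.length_cons] at he
        refine Finset.mem_union_right _ (Finset.mem_biUnion.mpr ⟨e, Finset.mem_range.mpr (by omega), ?_⟩)
        exact Finset.mem_filter.mpr ⟨hC, hb⟩
      · push Not at h4
        exact Finset.mem_union_left _ (Finset.mem_union_left _ ((mem_H_succ P).mpr ⟨hC, hP2 _ hr h4⟩))
  refine (Finset.card_le_card hsub).trans ((Finset.card_union_le _ _).trans ?_)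
  refine Nat.add_le_add (Finset.card_union_le _ _) ?_
  refine Finset.card_biUnion_le.trans (Finset.sum_le_sum ?_)
  intro e he
  rw [Finset.mem_range] at he
  exact bad4_bound q P hq n e (by omega)



/-- number of good codes -/
noncomputable def Ac (n : ℕ) : ℝ := ((H P n).card : ℝ)

theorem Ac_nonneg (n : ℕ) : 0 ≤ Ac P n := Nat.cast_nonneg _

theorem Ac_zero : Ac P 0 = 1 := by
  unfold Ac
  simp [H]

theorem rec_small (hP1 : ∀ C, P C → ¬ BadRun C) (hP2 : ∀ C, ¬ BadRun C → (∀ e, q + e ≤ C.length → ¬ Bad4 q C e) → P C)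
    (hq : 13 ≤ q) (n : ℕ) (hn : n < 3) : 2 * Ac P n ≤ Ac P (n + 1) := by
  have h := recursion q P hP2 (by omega) n
  rw [run_empty P n hn, show n + 2 - q = 0 by omega, Finset.range_zero, Finset.sum_empty] at h
  have h' : ((2 * (H P n).card : ℕ) : ℝ) ≤ (((H P (n + 1)).card + 0 + 0 : ℕ) : ℝ) := by exact_mod_cast h
  unfold Ac
  push_cast at h'
  linarith

theorem rec_big (hP1 : ∀ C, P C → ¬ BadRun C) (hP2 : ∀ C, ¬ BadRun C → (∀ e, q + e ≤ C.length → ¬ Bad4 q C e) → P C)
    (hq : 13 ≤ q) (n : ℕ) (hn : 3 ≤ n) :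
    2 * Ac P n ≤ Ac P (n + 1) + 2 * Ac P (n - 4) +
      2 * ∑ e ∈ Finset.range (n + 2 - q), Ac P (n + 2 - q - e) := by
  have h := recursion q P hP2 (by omega) n
  have h2 := run_bound P hP1 n hn
  have h3 : 2 * (H P n).card ≤ (H P (n + 1)).card + 2 * (H P (n - 4)).card
      + ∑ e ∈ Finset.range (n + 2 - q), 2 * (H P (n + 2 - q - e)).card := by
    refine h.trans ?_
    exact Nat.add_le_add_right (Nat.add_le_add_left h2 _) _
  have h4 : ((2 * (H P n).card : ℕ) : ℝ) ≤ (((H P (n + 1)).card + 2 * (H P (n - 4)).card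
      + ∑ e ∈ Finset.range (n + 2 - q), 2 * (H P (n + 2 - q - e)).card : ℕ) : ℝ) := by exact_mod_cast h3
  push_cast at h4
  rw [← Finset.mul_sum] at h4
  unfold Ac
  exact h4

theorem growth (hP1 : ∀ C, P C → ¬ BadRun C) (hP2 : ∀ C, ¬ BadRun C → (∀ e, q + e ≤ C.length → ¬ Bad4 q C e) → P C)
    (hq : 13 ≤ q) : ∀ n, 7 * Ac P n ≤ 4 * Ac P (n + 1) := by
  intro n
  induction n using Nat.strong_induction_on with
  | _ n ih =>
    have h0 := Ac_nonneg P n
    rcases Nat.lt_or_ge n 3 with hn | hn
    · have := rec_small q P hP1 hP2 hq n hn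
      linarith
    have hpow : ∀ k ≤ n, (7 / 4 : ℝ) ^ k * Ac P (n - k) ≤ Ac P n := by
      intro k
      induction k with
      | zero => intro _; simp
      | succ k ihk =>
        intro hk
        have e1 := ihk (by omega)
        have e2 := ih (n - (k + 1)) (by omega)
        rw [show n - (k + 1) + 1 = n - k by omega] at e2
        have hp : (0 : ℝ) ≤ (7 / 4 : ℝ) ^ k := by positivity
        calc (7 / 4 : ℝ) ^ (k + 1) * Ac P (n - (k + 1))
            = (7 / 4 : ℝ) ^ k * ((7 / 4) * Ac P (n - (k + 1))) := by ring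
          _ ≤ (7 / 4 : ℝ) ^ k * Ac P (n - k) := by
              apply mul_le_mul_of_nonneg_left _ hp
              linarith
          _ ≤ Ac P n := e1
    have hsum : ∀ K ≤ n, ∑ e ∈ Finset.range K, Ac P (K - e) ≤ (7 / 3 : ℝ) * Ac P K := by
      intro K
      induction K with
      | zero => intro _; simp; exact Ac_nonneg P 0
      | succ K ihK =>
        intro hK
        rw [Finset.sum_range_succ']
        have e1 := ihK (by omega)
        have e2 := ih K (by omega)
        have e3 : ∑ k ∈ Finset.range K, Ac P (K + 1 - (k + 1)) = ∑ e ∈ Finset.range K, Ac P (K - e) := by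
          apply Finset.sum_congr rfl
          intro k _
          rw [show K + 1 - (k + 1) = K - k by omega]
        rw [e3, Nat.sub_zero]
        linarith
    have hrec := rec_big q P hP1 hP2 hq n hn
    rcases Nat.eq_or_lt_of_le hn with h3 | h3
    · subst h3
      rw [show 3 + 2 - q = 0 by omega, Finset.range_zero, Finset.sum_empty] at hrec
      rw [show 3 - 4 = 0 by rfl, Ac_zero P] at hrec
      have r0 := rec_small q P hP1 hP2 hq 0 (by omega)
      have r1 := rec_small q P hP1 hP2 hq 1 (by omega)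
      have r2 := rec_small q P hP1 hP2 hq 2 (by omega)
      rw [Ac_zero P] at r0
      norm_num at r0 r1 r2 hrec ⊢
      linarith
    · have p4 := hpow 4 (by omega)
      have hK : ∑ e ∈ Finset.range (n + 2 - q), Ac P (n + 2 - q - e) ≤
          (7 / 3 : ℝ) * (4194304 / 1977326743 * Ac P n) := by
        rcases Nat.eq_zero_or_pos (n + 2 - q) with hz | hz
        · rw [hz, Finset.range_zero, Finset.sum_empty]
          positivity
        · have e1 := hsum (n + 2 - q) (by omega)
          have e2 := hpow (q - 2) (by omega)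
          rw [show n - (q - 2) = n + 2 - q by omega] at e2
          have e3 : (7 / 4 : ℝ) ^ 11 ≤ (7 / 4 : ℝ) ^ (q - 2) :=
            pow_le_pow_right₀ (by norm_num) (by omega)
          have e4 : (7 / 4 : ℝ) ^ 11 * Ac P (n + 2 - q) ≤ Ac P n :=
            (mul_le_mul_of_nonneg_right e3 (Ac_nonneg P _)).trans e2
          norm_num at e4
          linarith
      norm_num at p4
      linarith

theorem Ac_pos (hP1 : ∀ C, P C → ¬ BadRun C) (hP2 : ∀ C, ¬ BadRun C → (∀ e, q + e ≤ C.length → ¬ Bad4 q C e) → P C)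
    (hq : 13 ≤ q) : ∀ n, 0 < Ac P n := by
  intro n
  induction n with
  | zero => rw [Ac_zero P]; norm_num
  | succ n ih => have := growth q P hP1 hP2 hq n; linarith

theorem H_nonempty (hP1 : ∀ C, P C → ¬ BadRun C) (hP2 : ∀ C, ¬ BadRun C → (∀ e, q + e ≤ C.length → ¬ Bad4 q C e) → P C)
    (hq : 13 ≤ q) (n : ℕ) : (H P n).Nonempty := by
  have := Ac_pos q P hP1 hP2 hq n
  unfold Ac at this
  rw [← Finset.card_pos]
  exact_mod_cast this


end

end Pool.Agent.Y732.CM
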