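import Pool.Agent.Y732.CM.Cnt

/-! The codes that satisfy the conditions inside the determined part form a language closed under
factors; the number of its infinitely extendable words grows at least like `(7/4)^n`. -/

set_option autoImplicit false

namespace Pool.Agent.Y732.CM

open Pool.Agent.Helper35.UR (U U_ne U_drop U_inj U_cons_zero_false Bad4 BadRun Ext card_Ext mem_Ext miss miss_spec)

section
variable (q : ℕ)

theorem eq_miss (hq : 2 ≤ q) (c : List Bool) (x : Fin (q + 1)) (h : ∀ i < q, U q c i ≠ x) :
    x = miss q (U q c) := by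
  classical
  by_contra hne
  have hinj : Set.InjOn (U q c) (Finset.range q : Set ℕ) := by
    intro i hi j hj hij
    rw [Finset.coe_range, Set.mem_Iio] at hi hj
    by_contra hcon
    rcases Nat.lt_or_gt_of_ne hcon with hl | hl
    · have := U_ne q hq c i (j - i) (by omega) (by omega)
      rw [show i + (j - i) = j by omega] at this
      exact this hij.symm
    · have := U_ne q hq c j (i - j) (by omega) (by omega)
      rw [show j + (i - j) = i by omega] at this
      exact this hij
  have h1 : ((Finset.range q).image (U q c)).card = q := by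
    rw [Finset.card_image_of_injOn hinj, Finset.card_range]
  have hm : miss q (U q c) ∉ (Finset.range q).image (U q c) := by
    intro hm
    obtain ⟨i, hi, he⟩ := Finset.mem_image.1 hm
    exact miss_spec q (U q c) i (Finset.mem_range.1 hi) he
  have hx : x ∉ insert (miss q (U q c)) ((Finset.range q).image (U q c)) := by
    intro hm
    rcases Finset.mem_insert.1 hm with hm | hm
    · exact hne hm
    · obtain ⟨i, hi, he⟩ := Finset.mem_image.1 hm
      exact h i (Finset.mem_range.1 hi) he
  have h3 := Finset.card_le_card (Finset.subset_univ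
    (insert x (insert (miss q (U q c)) ((Finset.range q).image (U q c)))))
  rw [Finset.card_insert_of_notMem hx, Finset.card_insert_of_notMem hm, h1, Finset.card_univ,
    Fintype.card_fin] at h3
  omega

theorem pattern (hq : 2 ≤ q) (B : List Bool) : ∀ (A : List Bool) (i j : ℕ),
    i < A.length + q → j < A.length + q →
    (U q (A ++ B) i = U q (A ++ B) j ↔ U q A i = U q A j) := by
  intro A
  induction A with
  | nil =>
    intro i j hi hj
    rw [List.length_nil, Nat.zero_add] at hi hj
    have key : ∀ c : List Bool, (U q c i = U q c j ↔ i = j) := by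
      intro c
      constructor
      · intro hij
        by_contra hcon
        rcases Nat.lt_or_gt_of_ne hcon with hl | hl
        · have := U_ne q hq c i (j - i) (by omega) (by omega)
          rw [show i + (j - i) = j by omega] at this
          exact this hij.symm
        · have := U_ne q hq c j (i - j) (by omega) (by omega)
          rw [show j + (i - j) = i by omega] at this
          exact this hij
      · rintro rfl
        rfl
    rw [List.nil_append]
    exact (key B).trans (key []).symm
  | cons b A ih =>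
    have h0 : ∀ j, j < A.length + q →
        (U q (b :: (A ++ B)) 0 = U q (A ++ B) j ↔ U q (b :: A) 0 = U q A j) := by
      intro j hj
      cases b
      · show (U q (A ++ B) (q - 1) = U q (A ++ B) j ↔ U q A (q - 1) = U q A j)
        exact ih _ _ (by omega) hj
      · show (miss q (U q (A ++ B)) = U q (A ++ B) j ↔ miss q (U q A) = U q A j)
        constructor
        · intro h
          symm
          apply eq_miss q hq
          intro i hi he
          exact miss_spec q (U q (A ++ B)) i hi (((ih i j (by omega) hj).2 he).trans h.symm)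
        · intro h
          symm
          apply eq_miss q hq
          intro i hi he
          exact miss_spec q (U q A) i hi (((ih i j (by omega) hj).1 he).trans h.symm)
    intro i j hi hj
    rw [List.length_cons] at hi hj
    rcases i with _ | i <;> rcases j with _ | j
    · exact ⟨fun _ => rfl, fun _ => rfl⟩
    · exact h0 j (by omega)
    · exact ⟨fun h => ((h0 i (by omega)).1 h.symm).symm, fun h => ((h0 i (by omega)).2 h.symm).symm⟩
    · exact ih i j (by omega) (by omega)

/-- long repetitions inside the part determined by the code -/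
def Bad0 (C : List Bool) (e : ℕ) : Prop :=
  ∃ m, (e + 1) * (2 * q - 4) + 4 ≤ m ∧ m < (e + 2) * (2 * q - 4) + 4 ∧ e + m ≤ C.length ∧
    ∀ i < q + e, U q C i = U q C (i + m)

/-- the conditions on codes -/
def P0 (C : List Bool) : Prop := ¬ BadRun C ∧ ∀ e, ¬ Bad0 q C e

theorem P0_run (C : List Bool) (h : P0 q C) : ¬ BadRun C := h.1

theorem P0_of (hq : 4 ≤ q) (C : List Bool) (h1 : ¬ BadRun C)
    (h2 : ∀ e, q + e ≤ C.length → ¬ Bad4 q C e) : P0 q C := by
  refine ⟨h1, ?_⟩
  rintro e ⟨m, a1, a2, a3, a4⟩
  have hA : (e + 1) * (2 * q - 4) = e * (2 * q - 4) + (2 * q - 4) := by rw [Nat.add_mul, Nat.one_mul]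
  exact h2 e (by omega) ⟨m, a1, a2, a4⟩

theorem P0_take (hq : 4 ≤ q) (A B : List Bool) (h : P0 q (A ++ B)) : P0 q A := by
  refine ⟨?_, ?_⟩
  · rintro ⟨b, C', rfl⟩
    exact h.1 ⟨b, C' ++ B, rfl⟩
  · rintro e ⟨m, a1, a2, a3, a4⟩
    apply h.2 e
    refine ⟨m, a1, a2, by rw [List.length_append]; omega, ?_⟩
    intro i hi
    exact (pattern q (by omega) B A i (i + m) (by omega) (by omega)).2 (a4 i hi)

theorem H_take (hq : 4 ≤ q) : ∀ (m n : ℕ) (C : List Bool), C ∈ H (P0 q) (n + m) →
    C.take m ∈ H (P0 q) m := by
  intro m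
  induction m with
  | zero =>
    intro n C _
    simp [H]
  | succ m ih =>
    intro n C h
    rw [← Nat.add_assoc, mem_H_succ] at h
    obtain ⟨hE, hP⟩ := h
    obtain ⟨b, c, hc, rfl⟩ := mem_Ext.mp hE
    rw [mem_H_succ, List.take_succ_cons]
    refine ⟨mem_Ext.mpr ⟨b, c.take m, ih n c hc, rfl⟩, ?_⟩
    apply P0_take q hq _ (c.drop m)
    rw [List.cons_append, List.take_append_drop]
    exact hP

/-- infinitely extendable codes -/
def Extb (P : List Bool → Prop) (n : ℕ) (c : List Bool) : Prop :=
  ∀ N, ∃ C ∈ H P (n + N), C.drop N = c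

theorem Extb_succ (P : List Bool → Prop) (n : ℕ) (c : List Bool) (h : Extb P n c) :
    ∃ b, Extb P (n + 1) (b :: c) := by
  by_contra hcon
  push Not at hcon
  have ht := hcon true
  have hf := hcon false
  unfold Extb at ht hf
  push Not at ht hf
  obtain ⟨N1, h1⟩ := ht
  obtain ⟨N2, h2⟩ := hf
  obtain ⟨C, hC, hd⟩ := h (N1 + N2 + 1)
  have hlen := H_length P _ C hC
  have hd2 : (C.drop (N1 + N2)).drop 1 = c := by
    rw [List.drop_drop]; exact hd
  have hl : (C.drop (N1 + N2)).length = n + 1 := by
    rw [List.length_drop]; omega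
  obtain ⟨b, c', hbc⟩ : ∃ b c', C.drop (N1 + N2) = b :: c' := by
    rcases hX : C.drop (N1 + N2) with _ | ⟨b, c'⟩
    · rw [hX] at hl; simp at hl
    · exact ⟨b, c', rfl⟩
  have hcc : c' = c := by rw [hbc] at hd2; simpa using hd2
  subst hcc
  cases b
  · apply h2 (C.drop N1) _ _
    · apply H_drop P N1
      rw [show n + 1 + N2 + N1 = n + (N1 + N2 + 1) by omega]; exact hC
    · rw [List.drop_drop]; exact hbc
  · apply h1 (C.drop N2) _ _
    · apply H_drop P N2
      rw [show n + 1 + N1 + N2 = n + (N1 + N2 + 1) by omega]; exact hC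
    · rw [List.drop_drop, Nat.add_comm N2 N1]; exact hbc

theorem exists_level (P : List Bool → Prop) (n : ℕ) : ∃ N, ∀ c ∈ H P n,
    (∃ C ∈ H P (n + N), C.drop N = c) → Extb P n c := by
  classical
  let f : List Bool → ℕ := fun c =>
    if h : ∃ N, ¬ ∃ C ∈ H P (n + N), C.drop N = c then h.choose else 0
  refine ⟨(H P n).sup f, ?_⟩
  rintro c hc ⟨C, hC, hd⟩
  by_contra hcon
  have hex : ∃ N, ¬ ∃ C ∈ H P (n + N), C.drop N = c := by
    unfold Extb at hcon
    push Not at hcon
    obtain ⟨N, hN⟩ := hcon
    refine ⟨N, ?_⟩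
    rintro ⟨C', h1, h2⟩
    exact hN C' h1 h2
  have hf : f c = hex.choose := by simp only [f]; rw [dif_pos hex]
  have hle : f c ≤ (H P n).sup f := Finset.le_sup hc
  apply hex.choose_spec
  rw [← hf]
  refine ⟨C.drop ((H P n).sup f - f c), ?_, ?_⟩
  · apply H_drop P ((H P n).sup f - f c) (n + f c)
    rw [show n + f c + ((H P n).sup f - f c) = n + (H P n).sup f by omega]
    exact hC
  · rw [List.drop_drop, show (H P n).sup f - f c + f c = (H P n).sup f by omega]
    exact hd

open Classical in
/-- the extendable codes of length `n` -/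
noncomputable def EE (n : ℕ) : Finset (List Bool) := (H (P0 q) n).filter (fun c => Extb (P0 q) n c)

theorem pow_le (hq : 13 ≤ q) (N : ℕ) : ∀ n, (7 / 4 : ℝ) ^ n * Ac (P0 q) N ≤ Ac (P0 q) (n + N) := by
  intro n
  induction n with
  | zero => simp
  | succ n ih =>
    have h := growth q (P0 q) (P0_run q) (P0_of q (by omega)) hq (n + N)
    rw [show n + 1 + N = n + N + 1 by omega, pow_succ]
    linarith

theorem EE_card (hq : 13 ≤ q) (n : ℕ) : (7 / 4 : ℝ) ^ n ≤ ((EE q n).card : ℝ) := by
  classical
  obtain ⟨N, hN⟩ := exists_level (P0 q) n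
  have h1 : (H (P0 q) (n + N)).card ≤ (EE q n ×ˢ H (P0 q) N).card := by
    apply Finset.card_le_card_of_injOn (fun C => (C.drop N, C.take N))
    · intro C hC
      have hC' : C ∈ H (P0 q) (n + N) := hC
      rw [Finset.mem_coe, Finset.mem_product]
      have hd := H_drop (P0 q) N n C hC'
      refine ⟨?_, H_take q (by omega) N n C hC'⟩
      unfold EE
      rw [Finset.mem_filter]
      exact ⟨hd, hN _ hd ⟨C, hC', rfl⟩⟩
    · intro C1 _ C2 _ h
      simp only [Prod.mk.injEq] at h
      rw [← List.take_append_drop N C1, ← List.take_append_drop N C2, h.1, h.2]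
  rw [Finset.card_product] at h1
  have h2 := pow_le q hq N n
  have hpos := Ac_pos q (P0 q) (P0_run q) (P0_of q (by omega)) hq N
  have h3 : Ac (P0 q) (n + N) ≤ ((EE q n).card : ℝ) * Ac (P0 q) N := by
    unfold Ac
    exact_mod_cast h1
  exact le_of_mul_le_mul_right (h2.trans h3) hpos

theorem exists_code (n : ℕ) (c : List Bool) (hc : c ∈ EE q n) :
    ∃ Γ : ℕ → List Bool, ∃ γ : ℕ → Bool,
    Γ 0 = [] ∧ (∀ j, Γ (j + 1) = γ j :: Γ j) ∧ (∀ j, Γ j ∈ H (P0 q) j) ∧ Γ n = c := by
  classical
  unfold EE at hc
  rw [Finset.mem_filter] at hc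
  let nxt : (m : ℕ) → List Bool → Bool := fun m c =>
    if h : ∃ b, Extb (P0 q) (n + m + 1) (b :: c) then h.choose else true
  let Δ : ℕ → List Bool := fun m => Nat.rec c (fun m c => nxt m c :: c) m
  have hΔ : ∀ m, Extb (P0 q) (n + m) (Δ m) := by
    intro m
    induction m with
    | zero => exact hc.2
    | succ m ih =>
      have h := Extb_succ (P0 q) (n + m) (Δ m) ih
      have e : Δ (m + 1) = nxt m (Δ m) :: Δ m := rfl
      have e2 : nxt m (Δ m) = h.choose := by simp only [nxt]; rw [dif_pos h]
      rw [e, e2]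
      exact h.choose_spec
  have hH : ∀ m, Δ m ∈ H (P0 q) (n + m) := by
    intro m
    obtain ⟨C, hC, hd⟩ := hΔ m 0
    rw [List.drop_zero] at hd
    rw [← hd]
    exact hC
  have hl : ∀ m, (Δ m).length = n + m := fun m => H_length (P0 q) _ _ (hH m)
  have hdrop : ∀ m, (Δ m).drop m = c := by
    intro m
    induction m with
    | zero => rfl
    | succ m ih => exact ih
  refine ⟨fun j => (Δ j).drop n, fun j => (Δ (j + 1))[n]'(by have := hl (j + 1); omega), ?_, ?_, ?_, ?_⟩
  · show (Δ 0).drop n = []
    apply List.drop_eq_nil_of_le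
    rw [hl]
    omega
  · intro j
    show (Δ (j + 1)).drop n = _ :: (Δ j).drop n
    rw [List.drop_eq_getElem_cons (by have := hl (j + 1); omega)]
    rfl
  · intro j
    apply H_drop (P0 q) n j
    rw [Nat.add_comm]
    exact hH j
  · exact hdrop n

end

end Pool.Agent.Y732.CM
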