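import Pool.Agent.Y732.CM.Ext

/-! The set of infinite codes is uncountable. -/

set_option autoImplicit false

namespace Pool.Agent.Y732.CM

open Pool.Agent.Helper35.UR (U U_ne U_drop U_inj U_cons_zero_false Bad4 BadRun Ext card_Ext mem_Ext miss miss_spec)

/-- the prefix of length `n`, newest letter first -/
def code (γ : ℕ → Bool) : ℕ → List Bool
  | 0 => []
  | n + 1 => γ n :: code γ n

theorem code_length (γ : ℕ → Bool) (n : ℕ) : (code γ n).length = n := by
  induction n with
  | zero => rfl
  | succ n ih => show (γ n :: code γ n).length = n + 1; rw [List.length_cons, ih]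

theorem code_shift (γ : ℕ → Bool) (m n : ℕ) :
    code γ (m + n) = code (fun i => γ (m + i)) n ++ code γ m := by
  induction n with
  | zero => rfl
  | succ n ih =>
    show γ (m + n) :: code γ (m + n) = γ (m + n) :: (code (fun i => γ (m + i)) n ++ code γ m)
    rw [ih]

theorem code_take (γ : ℕ → Bool) (m n : ℕ) :
    (code γ (m + n)).take n = code (fun i => γ (m + i)) n := by
  rw [code_shift, List.take_append_of_le_length (by rw [code_length]), List.take_of_length_le (by rw [code_length])]

theorem code_drop (γ : ℕ → Bool) (m n : ℕ) : (code γ (m + n)).drop n = code γ m := by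
  rw [code_shift, List.drop_append_of_le_length (by rw [code_length]), List.drop_eq_nil_of_le (by rw [code_length]),
    List.nil_append]

theorem code_eq_iff (γ γ' : ℕ → Bool) (n : ℕ) : code γ n = code γ' n ↔ ∀ j < n, γ j = γ' j := by
  induction n with
  | zero => exact ⟨fun _ j hj => absurd hj (by omega), fun _ => rfl⟩
  | succ n ih =>
    show (γ n :: code γ n = γ' n :: code γ' n) ↔ _
    rw [List.cons.injEq, ih]
    constructor
    · rintro ⟨h1, h2⟩ j hj
      rcases Nat.lt_succ_iff_lt_or_eq.1 hj with h | rfl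
      · exact h2 j h
      · exact h1
    · intro h
      exact ⟨h n (by omega), fun j hj => h j (by omega)⟩

variable (q : ℕ)

/-- the infinite codes -/
def KK : Set (ℕ → Bool) := {γ | ∀ n, code γ n ∈ H (P0 q) n}

theorem KK_shift (hq : 4 ≤ q) (γ : ℕ → Bool) (h : γ ∈ KK q) (m : ℕ) : (fun i => γ (m + i)) ∈ KK q := by
  intro n
  rw [← code_take γ m n]
  exact H_take q hq n m _ (h (m + n))

theorem mem_EE (γ : ℕ → Bool) (h : γ ∈ KK q) (n : ℕ) : code γ n ∈ EE q n := by
  classical
  unfold EE
  rw [Finset.mem_filter]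
  exact ⟨h n, fun N => ⟨code γ (n + N), h _, code_drop γ n N⟩⟩

theorem EE_mem (n : ℕ) (c : List Bool) (hc : c ∈ EE q n) : ∃ γ ∈ KK q, code γ n = c := by
  obtain ⟨Γ, γ, h0, hs, hH, hn⟩ := exists_code q n c hc
  have h1 : ∀ j, code γ j = Γ j := by
    intro j
    induction j with
    | zero => exact h0.symm
    | succ j ih => rw [hs]; show γ j :: code γ j = _; rw [ih]
  refine ⟨γ, fun j => ?_, ?_⟩
  · rw [h1]; exact hH j
  · rw [h1]; exact hn

theorem isClosed_eq_code (n : ℕ) : ∀ c : List Bool, IsClosed {γ : ℕ → Bool | code γ n = c} := by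
  induction n with
  | zero =>
    intro c
    by_cases h : [] = c
    · have : {γ : ℕ → Bool | code γ 0 = c} = Set.univ := by
        ext γ; exact ⟨fun _ => trivial, fun _ => h⟩
      rw [this]; exact isClosed_univ
    · have : {γ : ℕ → Bool | code γ 0 = c} = ∅ := by
        ext γ; exact ⟨fun h' => h h', fun h' => absurd h' (Set.notMem_empty _)⟩
      rw [this]; exact isClosed_empty
  | succ n ih =>
    intro c
    rcases c with _ | ⟨b, c⟩
    · have : {γ : ℕ → Bool | code γ (n + 1) = []} = ∅ := by
        ext γ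
        constructor
        · intro h'
          have h2 : γ n :: code γ n = [] := h'
          simp at h2
        · intro h'; exact absurd h' (Set.notMem_empty _)
      rw [this]; exact isClosed_empty
    · have : {γ : ℕ → Bool | code γ (n + 1) = b :: c} =
          (fun γ : ℕ → Bool => γ n) ⁻¹' {b} ∩ {γ : ℕ → Bool | code γ n = c} := by
        ext γ
        constructor
        · intro h'
          have h2 : γ n :: code γ n = b :: c := h'
          rw [List.cons.injEq] at h2
          exact ⟨h2.1, h2.2⟩
        · rintro ⟨h1, h2⟩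
          have h1' : γ n = b := h1
          have h2' : code γ n = c := h2
          show γ n :: code γ n = b :: c
          rw [h1', h2']
      rw [this]
      exact ((isClosed_discrete _).preimage (continuous_apply n)).inter (ih c)

theorem isClosed_KK : IsClosed (KK q) := by
  have : KK q = ⋂ n, ⋃ c ∈ (H (P0 q) n : Set (List Bool)), {γ : ℕ → Bool | code γ n = c} := by
    ext γ
    simp only [KK, Set.mem_setOf_eq, Set.mem_iInter, Set.mem_iUnion, Finset.mem_coe]
    constructor
    · intro h n
      exact ⟨_, h n, rfl⟩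
    · intro h n
      obtain ⟨c, hc, he⟩ := h n
      rw [he]; exact hc
  rw [this]
  apply isClosed_iInter
  intro n
  exact Set.Finite.isClosed_biUnion (Finset.finite_toSet _) (fun c _ => isClosed_eq_code n c)

theorem isCompact_KK : IsCompact (KK q) := (isClosed_KK q).isCompact

theorem geo (n : ℕ) : ∀ L ≤ n, ∑ i ∈ Finset.range L, 2 ^ (n - 1 - i) + 2 ^ (n - L) = 2 ^ n := by
  intro L
  induction L with
  | zero => intro _; simp
  | succ L ih =>
    intro hL
    rw [Finset.sum_range_succ, ← ih (by omega), add_assoc]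
    congr 1
    rw [show n - 1 - L = n - (L + 1) by omega, show n - L = (n - (L + 1)) + 1 by omega, pow_succ]
    ring

theorem H_card (P : List Bool → Prop) (n : ℕ) : (H P n).card ≤ 2 ^ n := by
  classical
  induction n with
  | zero => simp [H]
  | succ n ih =>
    calc (H P (n + 1)).card ≤ (Ext (H P n)).card := by
          apply Finset.card_le_card
          intro C hC
          exact ((mem_H_succ P).1 hC).1
      _ = 2 * (H P n).card := card_Ext _
      _ ≤ 2 * 2 ^ n := Nat.mul_le_mul_left _ ih
      _ = 2 ^ (n + 1) := by rw [pow_succ]; ring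

theorem KK_uncountable (hq : 13 ≤ q) : ¬ (KK q).Countable := by
  classical
  intro hc
  have hne : (KK q).Nonempty := by
    have h := EE_card q hq 0
    have h1 : 0 < (EE q 0).card := by
      have : (0 : ℝ) < ((EE q 0).card : ℝ) := lt_of_lt_of_le (by norm_num) h
      exact_mod_cast this
    obtain ⟨c, hc⟩ := Finset.card_pos.1 h1
    obtain ⟨γ, hγ, _⟩ := EE_mem q 0 c hc
    exact ⟨γ, hγ⟩
  obtain ⟨g, hg⟩ := hc.exists_eq_range hne
  have hopen : ∀ i : ℕ, IsOpen {γ : ℕ → Bool | code γ (2 * (i + 1)) = code (g i) (2 * (i + 1))} := by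
    intro i
    have : {γ : ℕ → Bool | code γ (2 * (i + 1)) = code (g i) (2 * (i + 1))} =
        ⋂ j ∈ Finset.range (2 * (i + 1)), (fun γ : ℕ → Bool => γ j) ⁻¹' {g i j} := by
      ext γ
      simp only [Set.mem_setOf_eq, Set.mem_iInter, Finset.mem_range, Set.mem_preimage,
        Set.mem_singleton_iff]
      exact code_eq_iff _ _ _
    rw [this]
    apply isOpen_biInter_finset
    intro j _
    exact (isOpen_discrete _).preimage (continuous_apply j)
  obtain ⟨t, ht⟩ := (isCompact_KK q).elim_finite_subcover _ hopen (by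
    intro γ hγ
    rw [hg] at hγ
    obtain ⟨i, rfl⟩ := hγ
    exact Set.mem_iUnion.2 ⟨i, rfl⟩)
  obtain ⟨L, hL⟩ : ∃ L, ∀ i ∈ t, i < L := ⟨t.sup id + 1, fun i hi =>
    Nat.lt_succ_of_le (Finset.le_sup (f := id) hi)⟩
  have hrec : ∀ n, L ≤ n → (EE q (2 * n)).card ≤ ∑ i ∈ t, (EE q (2 * (n - 1 - i))).card := by
    intro n hn
    rw [← Finset.card_sigma]
    have hch : ∀ c ∈ EE q (2 * n), ∃ i ∈ t, c.take (2 * (n - 1 - i)) ∈ EE q (2 * (n - 1 - i)) ∧
        c.drop (2 * (n - 1 - i)) = code (g i) (2 * (i + 1)) := by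
      intro c hc
      obtain ⟨γ, hγ, rfl⟩ := EE_mem q _ c hc
      obtain ⟨i, hi, hγi⟩ := Set.mem_iUnion₂.1 (ht hγ)
      have hiL := hL i hi
      have e : 2 * n = 2 * (i + 1) + 2 * (n - 1 - i) := by omega
      refine ⟨i, hi, ?_, ?_⟩
      · rw [e, code_take]
        exact mem_EE q _ (KK_shift q (by omega) γ hγ _) _
      · rw [e, code_drop]
        exact hγi
    choose! f hf1 hf2 hf3 using hch
    apply Finset.card_le_card_of_injOn (fun c => (⟨f c, c.take (2 * (n - 1 - f c))⟩ : Σ _ : ℕ, List Bool))
    · intro c hc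
      rw [Finset.mem_coe, Finset.mem_sigma]
      exact ⟨hf1 c hc, hf2 c hc⟩
    · intro c hc c' hc' he
      rw [Sigma.mk.injEq] at he
      obtain ⟨he1, he2⟩ := he
      have he2' := eq_of_heq he2
      have h3 := hf3 c hc
      have h3' := hf3 c' hc'
      rw [← he1] at h3' he2'
      rw [← List.take_append_drop (2 * (n - 1 - f c)) c, ← List.take_append_drop (2 * (n - 1 - f c)) c',
        he2', h3, h3']
  have hbound : ∀ n, (EE q (2 * n)).card ≤ 4 ^ L * 2 ^ n := by
    intro n
    induction n using Nat.strong_induction_on with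
    | _ n ih =>
      rcases Nat.lt_or_ge n L with h | h
      · calc (EE q (2 * n)).card ≤ (H (P0 q) (2 * n)).card := by
              unfold EE
              exact Finset.card_filter_le _ _
          _ ≤ 2 ^ (2 * n) := H_card _ _
          _ = 4 ^ n := by rw [pow_mul]; norm_num
          _ ≤ 4 ^ L := Nat.pow_le_pow_right (by norm_num) h.le
          _ ≤ 4 ^ L * 2 ^ n := Nat.le_mul_of_pos_right _ (by positivity)
      · calc (EE q (2 * n)).card ≤ ∑ i ∈ t, (EE q (2 * (n - 1 - i))).card := hrec n h
          _ ≤ ∑ i ∈ t, 4 ^ L * 2 ^ (n - 1 - i) := by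
              apply Finset.sum_le_sum
              intro i hi
              have := hL i hi
              exact ih _ (by omega)
          _ ≤ ∑ i ∈ Finset.range L, 4 ^ L * 2 ^ (n - 1 - i) := by
              apply Finset.sum_le_sum_of_subset
              intro i hi
              exact Finset.mem_range.2 (hL i hi)
          _ = 4 ^ L * ∑ i ∈ Finset.range L, 2 ^ (n - 1 - i) := by rw [Finset.mul_sum]
          _ ≤ 4 ^ L * 2 ^ n := by
              apply Nat.mul_le_mul_left
              exact (Nat.le_add_right _ _).trans_eq (geo n L h)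
  obtain ⟨n, hn⟩ := pow_unbounded_of_one_lt ((4 : ℝ) ^ L) (show (1 : ℝ) < 49 / 32 by norm_num)
  have h1 := EE_card q hq (2 * n)
  have h2 : ((EE q (2 * n)).card : ℝ) ≤ 4 ^ L * 2 ^ n := by exact_mod_cast hbound n
  have h3 : (7 / 4 : ℝ) ^ (2 * n) = (49 / 32 : ℝ) ^ n * 2 ^ n := by
    rw [pow_mul, ← mul_pow]; norm_num
  rw [h3] at h1
  have h4 : (4 : ℝ) ^ L * 2 ^ n < (49 / 32 : ℝ) ^ n * 2 ^ n :=
    mul_lt_mul_of_pos_right hn (by positivity)
  linarith

end Pool.Agent.Y732.CM
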